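import Pool.Agent.H378.RS.Fam

/-!
# Alperin's weight conjecture in alternating-sum form: one residue class decides

Let `p` be a prime number, `F` an algebraically closed field of characteristic `p` and `red` a ring
homomorphism from the algebraic integers to `F`. A `p`-block `B` of a finite group `G` is (the central
character of) a block of `F[G]`: an algebra homomorphism from the centre of `F[G]` (the class
functions `G → F` with the convolution product) to `F`. An irreducible character `θ` of a subgroup `H`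
satisfies `bl(θ)^G = B` if `B` is the composition of the restriction of class functions from `G` to
`H` with the reduction of the central character of `θ`. For a block `B` of positive defect of a group
`G` with `O_p(G) = 1` the conjecture says that `S(B) = ∑_σ (-1)^|σ| k(B_σ)` is zero.

Proof. Let `C` be a group of prime order `q` and let `B'` be the block of `G ≀ C` above
`B ⊗ ⋯ ⊗ B` (it is unique). Then `q S(B') = S(B)^q + c S(B)`, where `c = q² - 1` if `q ≠ p`, and
`c = -1` if `q = p` (the last case comes from the formula for `G ≀ C_p` in `Pool.Agent.H378.JW`). Let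
`f_q(s) = (s^q + c s) / q`. Suppose that `S(B) ≠ 0`. Since `f_q` lowers the `q`-adic valuation of a
nonzero multiple of `q` by one, there is a block with `q ∤ S(B)`. Its powers give sums `s` which are
congruent to `1` modulo `q ^ (a + 1)`, and then `f_l(s) ≡ l` for the prime numbers `l ≠ p, q`. By
Dirichlet's theorem all units modulo `q ^ (a + 1)` are residues of alternating sums. Finally `f_q` maps
the numbers `u ≡ 1` modulo `q` onto all residues modulo `q ^ a`, by Hensel's lemma. All these
constructions make the sums grow like a power of the order of the group.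
-/

set_option autoImplicit false

noncomputable section

namespace Pool.Agent.Results.MP_6a3f1a_al.OneResidueClass

open Pool.Agent.Y63.KR (alternatingSum)
open Pool.Agent.Y63.NV (IsClassFun IsBlock centralValue)
open Pool.Agent.Y63.AWC (IsIrreducibleCharacter)

variable {F : Type} [Field F]

/-- `k(B_σ)` for `G_σ = H`: the number of the irreducible characters `θ` of the subgroup `H` with
`bl(θ)^G = B`. -/
def kB (red : integralClosure ℤ ℂ →+* F) {G : Type} [Group G] (B : (G → F) → F)
    (H : Subgroup G) : ℕ :=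
  Nat.card {θ : H → ℂ // IsIrreducibleCharacter θ ∧
      ∀ f : G → F, IsClassFun f → centralValue red θ (fun x => f x) = B f}

/-- The alternating sum `S(B) = ∑_σ (-1)^|σ| k(B_σ)` over representatives `σ` of the `G`-classes of
chains of nontrivial `p`-subgroups of `G`, the empty chain included. -/
def S (p : ℕ) (red : integralClosure ℤ ℂ →+* F) {G : Type} [Group G] (B : (G → F) → F) : ℤ :=
  alternatingSum p G (fun H => (kB red B H : ℤ))

/-- `B` is a block of positive defect: all its ordinary irreducible characters have positive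
`p`-defect. -/
def PositiveDefect (p : ℕ) (red : integralClosure ℤ ℂ →+* F) {G : Type} [Group G]
    (B : (G → F) → F) : Prop :=
  ∀ χ : G → ℂ, IsIrreducibleCharacter χ →
    (∀ f : G → F, IsClassFun f → centralValue red χ f = B f) →
    ∃ n : ℕ, χ 1 = (n : ℂ) ∧ n.factorization p < (Nat.card G).factorization p

/-- The pairs of the conjecture with `O_p(G) = 1`: a finite group `G` with `O_p(G) = 1` and a block
`B` of `G` of positive defect. -/
def Adm (p : ℕ) (red : integralClosure ℤ ℂ →+* F) (G : Type) (i : Group G) (B : (G → F) → F) : Prop :=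
  Finite G ∧ (∀ Q : Subgroup G, Q.Normal → IsPGroup p Q → Q = ⊥) ∧ IsBlock B ∧
    PositiveDefect p red B

open Classical in
/-- `B'` is a block of `G ≀ C` above `B ⊗ ⋯ ⊗ B`. -/
def OverWr {G C : Type} [Group G] [Group C] [Fintype C] (B : (G → F) → F)
    (B' : (RegularWreathProduct G C → F) → F) : Prop :=
  ∀ f : G → F, IsClassFun f →
    B' (fun s => if s.right = 1 then ∏ c, f (s.left c) else 0) = B f ^ Fintype.card C

/-- `B'` is the block `B ⊗ ⋯ ⊗ B` of the direct power `G^n`. -/
def OverPw {G : Type} [Group G] {n : ℕ} (B : (G → F) → F) (B' : ((Fin n → G) → F) → F) : Prop :=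
  ∀ f : G → F, IsClassFun f → B' (fun x => ∏ i, f (x i)) = B f ^ n

/-- A class of pairs `(G, B)` of a finite group and a block of positive defect which contains with
`(G, B)` also `(G ≀ C, B')`, for every group `C` of prime order, `B'` the block above `B ⊗ ⋯ ⊗ B`,
and the direct powers `(G^n, B ⊗ ⋯ ⊗ B)`. -/
structure Closed (p : ℕ) (red : integralClosure ℤ ℂ →+* F)
    (X : (G : Type) → Group G → ((G → F) → F) → Prop) : Prop where
  pairs : ∀ (G : Type) [i : Group G] (B : (G → F) → F), X G i B →
    Finite G ∧ IsBlock B ∧ PositiveDefect p red B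
  wreath : ∀ (C : Type) [Group C] [Fintype C], (Nat.card C).Prime →
    ∀ (G : Type) [i : Group G] (B : (G → F) → F), X G i B →
      ∀ B' : (RegularWreathProduct G C → F) → F, IsBlock B' → OverWr B B' →
        X (RegularWreathProduct G C) inferInstance B'
  power : ∀ (n : ℕ), 0 < n → ∀ (G : Type) [i : Group G] (B : (G → F) → F), X G i B →
    ∀ B' : ((Fin n → G) → F) → F, IsBlock B' → OverPw B B' → X (Fin n → G) inferInstance B'

/-- `S(B) = 0` for all pairs in `X`. -/
def Vanish (p : ℕ) (red : integralClosure ℤ ℂ →+* F)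
    (X : (G : Type) → Group G → ((G → F) → F) → Prop) : Prop :=
  ∀ (G : Type) [i : Group G] (B : (G → F) → F), X G i B → S p red B = 0

/-- For every `ε > 0` there is a constant `c` with `S(B) ≤ c |G| ^ ε` for all pairs `(G, B)` in `X`
with `S(B) ≡ r` modulo `m`. -/
def Small (p : ℕ) (red : integralClosure ℤ ℂ →+* F)
    (X : (G : Type) → Group G → ((G → F) → F) → Prop) (m : ℕ) (r : ℤ) : Prop :=
  ∀ ε : ℝ, 0 < ε → ∃ c : ℝ, ∀ (G : Type) [i : Group G] (B : (G → F) → F), X G i B →
    S p red B ≡ r [ZMOD m] → (S p red B : ℝ) ≤ c * (Nat.card G : ℝ) ^ ε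

/-- For some `δ > 0` and all `N` there is a pair `(G, B)` in `X` with `S(B) ≡ r` modulo `m`,
`S(B) ≥ N` and `S(B) ≥ |G| ^ δ`. -/
def Large (p : ℕ) (red : integralClosure ℤ ℂ →+* F)
    (X : (G : Type) → Group G → ((G → F) → F) → Prop) (m : ℕ) (r : ℤ) : Prop :=
  ∃ δ : ℝ, 0 < δ ∧ ∀ N : ℕ, ∃ (G : Type) (i : Group G) (B : (G → F) → F), X G i B ∧
    S p red B ≡ r [ZMOD m] ∧ (N : ℤ) ≤ S p red B ∧ (Nat.card G : ℝ) ^ δ ≤ (S p red B : ℝ)

/-- `S(B)` is not congruent to `r` modulo `m` for any pair in `X`. -/
def Missed (p : ℕ) (red : integralClosure ℤ ℂ →+* F)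
    (X : (G : Type) → Group G → ((G → F) → F) → Prop) (m : ℕ) (r : ℤ) : Prop :=
  ∀ (G : Type) [i : Group G] (B : (G → F) → F), X G i B → ¬ S p red B ≡ r [ZMOD m]

theorem kB_eq (red : integralClosure ℤ ℂ →+* F) {G : Type} [Group G] (B : (G → F) → F)
    (H : Subgroup G) : kB red B H = Pool.Agent.H378.RS.kA red B H := by
  unfold kB Pool.Agent.H378.RS.kA
  refine Nat.card_congr (Equiv.subtypeEquivRight fun θ => ?_)
  rw [Pool.Agent.E8helper60.DD.mem_IndB]

theorem S_eq (p : ℕ) (red : integralClosure ℤ ℂ →+* F) {G : Type} [Group G] (B : (G → F) → F) :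
    S p red B = alternatingSum p G (fun H => (Pool.Agent.H378.RS.kA red B H : ℤ)) := by
  unfold S
  simp only [kB_eq]

variable {p : ℕ} {red : integralClosure ℤ ℂ →+* F}

theorem Closed.clA {X : (G : Type) → Group G → ((G → F) → F) → Prop} (h : Closed p red X) :
    Pool.Agent.H378.RS.ClA p red True X :=
  ⟨fun G _ B hX => (h.pairs G B hX).1, fun G _ B hX => (h.pairs G B hX).2.1,
    fun G _ B hX => (h.pairs G B hX).2.2,
    fun C _ _ hC _ G _ B hX B' h1 h2 => h.wreath C hC G B hX B' h1 h2,
    fun n hn G _ B hX B' h1 h2 => h.power n hn G B hX B' h1 fun f hf => by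
      have h3 := h2 f hf
      rw [Fintype.card_fin] at h3
      exact h3⟩

variable [IsAlgClosed F] [hp : Fact p.Prime] [CharP F p]

theorem adm_closed : Closed p red (Adm p red) := by
  have h := Pool.Agent.H378.RS.clA_all (p := p) (red := red)
  exact ⟨fun G _ B hX => ⟨hX.1, hX.2.2.1, hX.2.2.2⟩,
    fun C _ _ hC G _ B hX B' h1 h2 => h.wr C hC (fun _ => trivial) G B hX B' h1 h2,
    fun n hn G _ B hX B' h1 h2 => h.pw n hn G B hX B' h1 fun f hf => by
      rw [Fintype.card_fin]
      exact h2 f hf⟩

theorem modEq_iff {q a : ℕ} {s r : ℤ} : s ≡ r [ZMOD (q ^ a : ℕ)] ↔ (q : ℤ) ^ a ∣ s - r := by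
  rw [Int.modEq_comm, Int.modEq_iff_dvd]
  push_cast
  exact Iff.rfl

theorem large {X : (G : Type) → Group G → ((G → F) → F) → Prop} (h : Closed p red X) {G : Type}
    [i : Group G] {B : (G → F) → F} (hX : X G i B) (h0 : S p red B ≠ 0) {q : ℕ} (hq : q.Prime)
    (a : ℕ) (r : ℤ) : Large p red X (q ^ a) r := by
  have hf := (h.pairs G B hX).1
  rw [S_eq, Pool.Agent.H378.RS.alt_eq] at h0
  obtain ⟨δ, hδ, h1⟩ := h.clA.clo.res hq (fun _ => trivial) ⟨G, i, B, hX, rfl, rfl⟩ h0 a r
  refine ⟨δ, hδ, fun N => ?_⟩
  obtain ⟨s, g, ⟨G', i', B', h2, rfl, rfl⟩, h3, h4, h5⟩ := h1 N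
  have hf' := (h.pairs G' B' h2).1
  rw [← Pool.Agent.H378.RS.alt_eq, ← S_eq] at h3 h4 h5
  exact ⟨G', i', B', h2, modEq_iff.2 h3, h4, h5⟩

theorem small {X : (G : Type) → Group G → ((G → F) → F) → Prop} (h : Closed p red X) {q : ℕ}
    (hq : q.Prime) (a : ℕ) (r : ℤ) (hs : Small p red X (q ^ a) r) : Vanish p red X := by
  intro G i B hX
  rw [S_eq]
  refine h.clA.bound hq a r (fun ε hε => ?_) G B hX
  obtain ⟨c, hc⟩ := hs ε hε
  refine ⟨c, fun G i B hX h1 => ?_⟩
  rw [← S_eq] at h1 ⊢
  exact hc G B hX (modEq_iff.2 h1)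

omit hp in
/-- **Alperin's weight conjecture in alternating-sum form: one residue class modulo a prime power
decides.** Let `p` be a prime number and let `X` be a class of pairs `(G, B)` of a finite group `G` and
a `p`-block `B` of `G` of positive defect, which is closed under `(G, B) ↦ (G ≀ C, B')` for all groups
`C` of prime order (also of order `p`) and under direct powers; for example the class of all pairs with
`O_p(G) = 1` (this is (3)). Let `m` be a power of a prime number (which may be `p`) and `r` an integer.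
(1) If `S(B) ≠ 0` for some pair in `X`, then there are `δ > 0` and pairs `(G, B)` in `X` with
`S(B) ≡ r` modulo `m`, `S(B) ≥ |G| ^ δ` and arbitrarily large `S(B)`.
(2) The following are equivalent: `S(B) = 0` for all pairs in `X`; for every `ε > 0` there is a
constant `c` with `S(B) ≤ c |G| ^ ε` for the pairs in `X` with `S(B) ≡ r` modulo `m`. If `m` does not
divide `r`, these are equivalent to: no `S(B)` is congruent to `r` modulo `m`. -/
theorem result (p : ℕ) [Fact p.Prime] (F : Type) [Field F] [IsAlgClosed F] [CharP F p]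
    (red : integralClosure ℤ ℂ →+* F) :
    (∀ X : (G : Type) → Group G → ((G → F) → F) → Prop, Closed p red X →
      ∀ (q a : ℕ) (r : ℤ), q.Prime →
        (¬ Vanish p red X → Large p red X (q ^ a) r) ∧
        (Vanish p red X ↔ Small p red X (q ^ a) r) ∧
        (¬ ((q ^ a : ℕ) : ℤ) ∣ r → (Vanish p red X ↔ Missed p red X (q ^ a) r))) ∧
    Closed p red (Adm p red) := by
  refine ⟨fun X hX q a r hq => ⟨fun h => ?_, ⟨fun h ε _ => ⟨0, fun G i B hB _ => ?_⟩,
    small hX hq a r⟩, fun hr => ⟨fun h G i B hB h1 => ?_, fun h => small hX hq a r fun ε _ =>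
      ⟨0, fun G i B hB h1 => (h G B hB h1).elim⟩⟩⟩, adm_closed⟩
  · unfold Vanish at h
    push Not at h
    obtain ⟨G, i, B, hB, h0⟩ := h
    exact large hX hB h0 hq a r
  · rw [h G B hB, Int.cast_zero, zero_mul]
  · rw [h G B hB, Int.modEq_iff_dvd, sub_zero] at h1
    exact hr h1

end Pool.Agent.Results.MP_6a3f1a_al.OneResidueClass
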