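import Pool.Agent.H373.PD.P12

/-!
# Alperin's weight conjecture in alternating-sum form: three normal subgroups modulo the centre

Let `p` be a prime, and let `q > 7` be a prime with `p ∣ q + 1` (and `4 ∣ q + 1` if `p = 2`); there
are infinitely many such `q`. We use the following finite groups.

* `X_n`: the permutational wreath product of `PSL(2, q)` and the alternating group `A_n` in its action
on the `n (n - 1)` ordered pairs of distinct points.
* `X_H = PSL(2, q) ^ (H / Z(H)) ⋊ H`, where `H` permutes the factors by left multiplication, for the
groups `H = SL(N, r) / K` with `N ≥ 3`, `r` a prime and `K` a group of scalar matrices (type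
`HS N r δ`), and for the direct products `H` of `k` such groups (type `HP k N r δ`).

Let `F` be an algebraically closed field of characteristic `p`. For a finite group `G` with
`O_p(G) ≤ Z(G)` and a block `B` of `FG` let `S(B) = ∑ (-1) ^ |C| k(B_C)`, over the conjugacy classes of
chains `C = (O_p(G) = P_0 < P_1 < ... < P_n)` of `p`-subgroups of `G`, where `k(B_C)` is the sum of the
dimensions of the centres of the blocks of `N_G(C)` which induce `B` (the number of their irreducible
characters). The conjecture of Alperin in the form of Knörr and Robinson says that `S(B) = 0` for all
`B` the defect groups of which contain `O_p(G)` properly.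

(1) For `n ≥ 5` the group `X_n` has exactly three normal subgroups `1 < M < X_n`, where
`M = PSL(2, q) ^ (n (n - 1))` and `X_n / M = A_n`; it is isomorphic to a primitive permutation group,
and `O_p(X_n) = 1`. For `H = SL(N, r) / K` the group `X = X_H` is perfect with cyclic centre,
`O_p(X) ≤ Z(X)`, and `X / Z(X)` is a primitive permutation group with exactly three normal subgroups.
If `H` is a direct product of such groups, then `X` is perfect, `O_p(X) ≤ Z(X)`, `X / Z(X)` is a
primitive permutation group, and `X` has a normal subgroup `M`, a direct power of a nonabelian simple
group with `C_X(M) = Z(X)`, such that all normal subgroups of `X` are contained in `Z(X)` or contain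
`M`.

(2) Let `G` be any finite group with `O_p(G) ≤ Z(G)`. The blocks `B` of `FG` are reproduced by blocks
`B'` of `FX` (a matrix ring over `B`, isomorphic defect groups, which contain `O_p(X)` properly if and
only if those of `B` contain `O_p(G)` properly, and `S(B') = S(B)`) for `X = X_n`,
`n ≥ |G| ^ 2 + 3 |G| + 5`, if `O_p(G) = 1`, for some `X = X_H`, `H = SL(N, r) / K`, if `O_p(G)` is
cyclic, and for some `X = X_H`, `H` a direct product of such groups, in general. In the last two cases
`O_p(X) = Z(X)`.

(3) So the conjecture is true for the finite groups `G` with `O_p(G) = 1` if and only if it is true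
for the `X_n`, `n` in an infinite set; it is true for the finite groups `G` such that `O_p(G)` is
central and cyclic if and only if it is true for the perfect groups `X` with cyclic centre
`Z(X) = O_p(X)` such that `X / Z(X)` is a primitive permutation group with exactly three normal
subgroups; and it is true for all finite groups `G` with `O_p(G) ≤ Z(G)` if and only if it is true for
the groups `X` with `O_p(X) = Z(X)` with the structure described at the end of (1). The last
equivalence is also true for any property of `S(B)` in place of `S(B) = 0`.

The proof is the one described in `Pool/Agent/Results/MP_3f89b9_al/ThreeNormalModuloCentre.lean`.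
-/

set_option autoImplicit false

open Pool.Agent.H373.BU Pool.Agent.H373.MN Pool.Agent.H373.PD

theorem Pool.Agent.Results.MP_6a3f1a_al.ThreeNormalModuloCentre.result (p : ℕ) [Fact p.Prime] :
    (∀ N : ℕ, ∃ q, N < q ∧ Good p q) ∧
    ∀ q, Good p q → FamO p q ∧
      ∀ (F : Type) [Field F] [IsAlgClosed F] [CharP F p],
        ReproAllK p q F ∧
        (∀ S : Set ℕ, S.Infinite →
          ((∀ (G : Type) [Group G] [Finite G], Op p G = ⊥ → KRO p F G) ↔
            ∀ n ∈ S, 5 ≤ n → KRO p F (XP n q))) ∧
        ((∀ (G : Type) [Group G] [Finite G], Op p G ≤ Subgroup.center G →
            IsCyclic (Op p G) → KRO p F G) ↔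
          ∀ (X : Type) [Group X] [Finite X], Mod3 X → Op p X = Subgroup.center X →
            KRO p F X) ∧
        ((∀ (G : Type) [Group G] [Finite G], Op p G ≤ Subgroup.center G → KRO p F G) ↔
          ∀ (X : Type) [Group X] [Finite X], Mod1 X → Op p X = Subgroup.center X →
            KRO p F X) ∧
        ∀ R : ℤ → Prop,
          (∀ (G : Type) [Group G] [Finite G], Op p G ≤ Subgroup.center G →
            ∀ B : Blk F G, AboveK p B → R (krO p B.e)) ↔
          ∀ (X : Type) [Group X] [Finite X], Mod1 X → Op p X = Subgroup.center X →
            ∀ B : Blk F X, AboveK p B → R (krO p B.e) :=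
  kr_full p
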